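import Mathlib

set_option autoImplicit false

/-!
# Integral covers from fractional covers of few points

Finitely many sets (indexed by `T`) with weights `w ≥ 0` of total weight `W` cover every element of the
finite set `F` with weight at least one. Then some of the sets, at most `(|F| + 2 W) / 3`, cover `F`
(`small_cover`); if `W ≤ n` and `|F| ≥ 3 n`, there are such with at most
`n (5/3 + log (|F| / (3 n)))` sets (`large_cover`).
-/

namespace HH284

open Finset

section Match

variable {α : Type*} [DecidableEq α]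

/-- A partial injection without fixed points on `P` contains a matching with at least `|P| / 3`
edges. -/
theorem exists_matching (f : α → α) (m : ℕ) : ∀ P : Finset α, P.card ≤ m →
    (∀ x ∈ P, ∀ y ∈ P, f x = f y → x = y) → (∀ x ∈ P, f x ≠ x) →
    ∃ M ⊆ P, P.card ≤ 3 * M.card ∧
      ∀ x ∈ M, ∀ y ∈ M, x ≠ y → f x ≠ y ∧ x ≠ f y ∧ f x ≠ f y := by
  induction m with
  | zero =>
    intro P hP _ _
    exact ⟨∅, by simp, by simpa using hP, by simp⟩
  | succ m ih =>
    intro P hP hinj hne
    rcases P.eq_empty_or_nonempty with rfl | ⟨x, hx⟩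
    · exact ⟨∅, by simp, by simp, by simp⟩
    set P' := P.filter (fun y => y ≠ x ∧ y ≠ f x ∧ f y ≠ x) with hP'
    have hsub : P' ⊆ P := filter_subset _ _
    have hlt : P'.card < P.card := by
      apply card_lt_card
      refine ⟨hsub, fun h => ?_⟩
      have := h hx
      simp [hP'] at this
    obtain ⟨M, hM, hcard, hdis⟩ := ih P' (by omega)
      (fun a ha b hb => hinj a (hsub ha) b (hsub hb)) (fun a ha => hne a (hsub ha))
    have hMx : ∀ y ∈ M, y ≠ x ∧ y ≠ f x ∧ f y ≠ x := fun y hy => (mem_filter.mp (hM hy)).2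
    refine ⟨insert x M, insert_subset hx (hM.trans hsub), ?_, ?_⟩
    · have h1 : P.card ≤ P'.card + 3 := by
        have h2 : P ⊆ P' ∪ ({x} ∪ {f x} ∪ P.filter (fun y => f y = x)) := by
          intro y hy
          by_cases h : y ≠ x ∧ y ≠ f x ∧ f y ≠ x
          · exact mem_union_left _ (mem_filter.mpr ⟨hy, h⟩)
          · apply mem_union_right
            by_cases h1 : y = x
            · simp [h1]
            by_cases h2 : y = f x
            · simp [h2]
            have h3 : f y = x := by
              by_contra h3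
              exact h ⟨h1, h2, h3⟩
            simp [hy, h3]
        have h3 : (P.filter (fun y => f y = x)).card ≤ 1 := by
          rw [card_le_one]
          intro a ha b hb
          rw [mem_filter] at ha hb
          exact hinj a ha.1 b hb.1 (ha.2.trans hb.2.symm)
        calc P.card ≤ (P' ∪ ({x} ∪ {f x} ∪ P.filter (fun y => f y = x))).card := card_le_card h2
          _ ≤ P'.card + ({x} ∪ {f x} ∪ P.filter (fun y => f y = x)).card := card_union_le _ _
          _ ≤ P'.card + (({x} ∪ {f x} : Finset α).card + (P.filter (fun y => f y = x)).card) := by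
            gcongr
            exact card_union_le _ _
          _ ≤ P'.card + ((1 + 1) + 1) := by
            gcongr
            refine (card_union_le _ _).trans ?_
            simp
          _ = P'.card + 3 := by ring
      have h4 : x ∉ M := fun h => (hMx x h).1 rfl
      rw [card_insert_of_notMem h4]
      omega
    · intro a ha b hb hab
      rw [mem_insert] at ha hb
      rcases ha with rfl | ha <;> rcases hb with rfl | hb
      · exact absurd rfl hab
      · have := hMx b hb
        refine ⟨fun h => this.2.1 h.symm, fun h => this.2.2 h.symm, fun h => ?_⟩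
        exact this.1 (hinj _ (hsub (hM hb)) _ hx h.symm)
      · have := hMx a ha
        refine ⟨this.2.2, this.2.1, fun h => ?_⟩
        exact this.1 (hinj _ (hsub (hM ha)) _ hx h)
      · exact hdis a ha b hb hab

end Match

section Cover

variable {α ι : Type*}

open Classical in
/-- the elements of `F` covered by the set with index `t` -/
noncomputable def shell (cov : ι → α → Prop) (F : Finset α) (t : ι) : Finset α :=
  F.filter (fun x => cov t x)

theorem mem_shell {cov : ι → α → Prop} {F : Finset α} {t : ι} {x : α} :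
    x ∈ shell cov F t ↔ x ∈ F ∧ cov t x := by
  simp [shell]

open Classical in
/-- fractional cover: every element of `F` is covered with weight at least one -/
def FracCover (cov : ι → α → Prop) (F : Finset α) (T : Finset ι) (w : ι → ℝ) : Prop :=
  (∀ t ∈ T, 0 ≤ w t) ∧ ∀ x ∈ F, 1 ≤ ∑ t ∈ T, if cov t x then w t else 0

theorem FracCover.mono {cov : ι → α → Prop} {F F' : Finset α} {T : Finset ι} {w : ι → ℝ}
    (h : FracCover cov F T w) (hF : F' ⊆ F) : FracCover cov F' T w :=
  ⟨h.1, fun x hx => h.2 x (hF hx)⟩

theorem FracCover.exists_cov {cov : ι → α → Prop} {F : Finset α} {T : Finset ι} {w : ι → ℝ}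
    (h : FracCover cov F T w) {x : α} (hx : x ∈ F) : ∃ t ∈ T, cov t x := by
  classical
  by_contra hcon
  push Not at hcon
  have h1 := h.2 x hx
  have h2 : ∑ t ∈ T, (if cov t x then w t else 0) = 0 :=
    sum_eq_zero fun t ht => if_neg (hcon t ht)
  rw [h2] at h1
  linarith

/-- weak duality -/
theorem FracCover.packing {cov : ι → α → Prop} {F : Finset α} {T : Finset ι} {w : ι → ℝ}
    (h : FracCover cov F T w) (y : α → ℝ) (hy : ∀ x ∈ F, 0 ≤ y x) (q : ℝ)
    (hyt : ∀ t ∈ T, ∑ x ∈ shell cov F t, y x ≤ q) : ∑ x ∈ F, y x ≤ q * ∑ t ∈ T, w t := by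
  classical
  calc ∑ x ∈ F, y x ≤ ∑ x ∈ F, y x * ∑ t ∈ T, (if cov t x then w t else 0) := by
        refine sum_le_sum fun x hx => ?_
        have h1 := h.2 x hx
        have h2 := hy x hx
        nlinarith
    _ = ∑ t ∈ T, ∑ x ∈ F, (if cov t x then y x * w t else 0) := by
        rw [sum_comm]
        refine sum_congr rfl fun x _ => ?_
        rw [mul_sum]
        refine sum_congr rfl fun t _ => ?_
        split_ifs
        · rfl
        · rw [mul_zero]
    _ = ∑ t ∈ T, w t * ∑ x ∈ shell cov F t, y x := by
        refine sum_congr rfl fun t _ => ?_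
        unfold shell
        rw [mul_sum, sum_filter]
        refine sum_congr rfl fun x _ => ?_
        split_ifs
        · ring
        · rfl
    _ ≤ ∑ t ∈ T, w t * q := by
        refine sum_le_sum fun t ht => ?_
        exact mul_le_mul_of_nonneg_left (hyt t ht) (h.1 t ht)
    _ = q * ∑ t ∈ T, w t := by rw [← sum_mul, mul_comm]

/-- The case of sets with at most two elements. -/
theorem pair_cover {cov : ι → α → Prop} {F : Finset α} {T : Finset ι} {w : ι → ℝ}
    (h : FracCover cov F T w) (hsmall : ∀ t ∈ T, (shell cov F t).card ≤ 2) :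
    ∃ C ⊆ T, (3 * C.card : ℝ) ≤ F.card + 2 * ∑ t ∈ T, w t ∧ ∀ x ∈ F, ∃ t ∈ C, cov t x := by
  classical
  set W := ∑ t ∈ T, w t with hW
  have hW0 : 0 ≤ W := sum_nonneg h.1
  rcases F.eq_empty_or_nonempty with rfl | hFne
  · refine ⟨∅, empty_subset _, ?_, by simp⟩
    simp only [card_empty, Nat.cast_zero]
    linarith
  have hιne : Nonempty ι := by
    obtain ⟨x, hx⟩ := hFne
    obtain ⟨t, _⟩ := h.exists_cov hx
    exact ⟨t⟩
  let N : α → Finset α := fun x => F.filter (fun y => y ≠ x ∧ ∃ t ∈ T, cov t x ∧ cov t y)
  have hN : ∀ x y, y ∈ N x ↔ y ∈ F ∧ y ≠ x ∧ ∃ t ∈ T, cov t x ∧ cov t y := fun x y => by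
    simp only [N, mem_filter]
  have key : ∀ S ⊆ F, (S.card : ℝ) - (S.biUnion N).card ≤ 2 * W - F.card := by
    intro S hS
    set NS := S.biUnion N with hNS
    have hNSF : NS ⊆ F := by
      intro y hy
      rw [hNS, mem_biUnion] at hy
      obtain ⟨x, _, hy⟩ := hy
      exact ((hN x y).mp hy).1
    let y : α → ℝ := fun x => (1 + (if x ∈ S then 1 else 0) - (if x ∈ NS then 1 else 0)) / 2
    have hy0 : ∀ x ∈ F, 0 ≤ y x := by
      intro x _
      simp only [y]
      split_ifs <;> norm_num
    have hy1 : ∀ x, y x ≤ 1 := by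
      intro x
      simp only [y]
      split_ifs <;> norm_num
    have hpair : ∀ t ∈ T, ∑ x ∈ shell cov F t, y x ≤ 1 := by
      intro t ht
      have hc := hsmall t ht
      rcases Nat.lt_or_ge (shell cov F t).card 2 with hc1 | hc2
      · calc ∑ x ∈ shell cov F t, y x ≤ ∑ x ∈ shell cov F t, (1 : ℝ) :=
              sum_le_sum fun x _ => hy1 x
          _ = (shell cov F t).card := by simp
          _ ≤ 1 := by exact_mod_cast (by omega : (shell cov F t).card ≤ 1)
      · have hc3 : (shell cov F t).card = 2 := le_antisymm hc hc2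
        obtain ⟨a, b, hab, hs⟩ := card_eq_two.mp hc3
        rw [hs, sum_pair hab]
        have ha : a ∈ F ∧ cov t a := mem_shell.mp (by rw [hs]; simp)
        have hb : b ∈ F ∧ cov t b := mem_shell.mp (by rw [hs]; simp)
        have h1 : a ∈ S → b ∈ NS := fun haS => by
          rw [hNS, mem_biUnion]
          exact ⟨a, haS, (hN a b).mpr ⟨hb.1, hab.symm, t, ht, ha.2, hb.2⟩⟩
        have h2 : b ∈ S → a ∈ NS := fun hbS => by
          rw [hNS, mem_biUnion]
          exact ⟨b, hbS, (hN b a).mpr ⟨ha.1, hab, t, ht, hb.2, ha.2⟩⟩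
        simp only [y]
        by_cases e1 : a ∈ S <;> by_cases e2 : b ∈ S <;> by_cases e3 : a ∈ NS <;>
          by_cases e4 : b ∈ NS <;> simp [e1, e2, e3, e4] <;>
          first
          | exact absurd (h1 e1) e4
          | exact absurd (h2 e2) e3
          | norm_num
    have hp := h.packing y hy0 1 hpair
    rw [one_mul] at hp
    have hs : ∑ x ∈ F, y x = ((F.card : ℝ) + S.card - NS.card) / 2 := by
      simp only [y]
      rw [← sum_div, sum_sub_distrib, sum_add_distrib]
      have i1 : ∑ x ∈ F, (if x ∈ S then (1 : ℝ) else 0) = S.card := by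
        rw [← sum_filter, sum_const, nsmul_eq_mul, mul_one]
        congr 2
        ext x
        rw [mem_filter]
        exact ⟨fun hh => hh.2, fun hh => ⟨hS hh, hh⟩⟩
      have i2 : ∑ x ∈ F, (if x ∈ NS then (1 : ℝ) else 0) = NS.card := by
        rw [← sum_filter, sum_const, nsmul_eq_mul, mul_one]
        congr 2
        ext x
        rw [mem_filter]
        exact ⟨fun hh => hh.2, fun hh => ⟨hNSF hh, hh⟩⟩
      rw [i1, i2]
      simp
    rw [hs] at hp
    linarith
  have hD0 : 0 ≤ 2 * W - F.card := by
    have := key ∅ (empty_subset _)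
    simpa using this
  set D := ⌊2 * W - F.card⌋₊ with hD
  have hDle : (D : ℝ) ≤ 2 * W - F.card := Nat.floor_le hD0
  have key2 : ∀ S ⊆ F, S.card ≤ (S.biUnion N).card + D := by
    intro S hS
    by_contra hcon
    push Not at hcon
    have h1 := key S hS
    have h2 : D + 1 ≤ S.card - (S.biUnion N).card := by omega
    have h3 : ((D + 1 : ℕ) : ℝ) ≤ 2 * W - F.card := by
      refine le_trans ?_ h1
      have h4 : ((D + 1 + (S.biUnion N).card : ℕ) : ℝ) ≤ S.card := by
        exact_mod_cast (by omega : D + 1 + (S.biUnion N).card ≤ S.card)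
      push_cast at h4 ⊢
      linarith
    have h4 := Nat.le_floor h3
    rw [← hD] at h4
    omega
  -- Hall with `D` dummies
  let t' : {x // x ∈ F} → Finset (α ⊕ Fin D) := fun x => (N x.1).disjSum univ
  have hall : ∀ s : Finset {x // x ∈ F}, s.card ≤ (s.biUnion t').card := by
    intro s
    rcases s.eq_empty_or_nonempty with rfl | hs
    · simp
    let S : Finset α := s.map (Function.Embedding.subtype _)
    have hS : S ⊆ F := by
      intro x hx
      simp only [S, mem_map] at hx
      obtain ⟨a, _, rfl⟩ := hx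
      exact a.2
    have h1 : (S.biUnion N).disjSum (univ : Finset (Fin D)) ⊆ s.biUnion t' := by
      intro z hz
      rw [mem_disjSum] at hz
      rcases hz with ⟨a, ha, rfl⟩ | ⟨b, hb, rfl⟩
      · rw [mem_biUnion] at ha
        obtain ⟨x, hx, ha⟩ := ha
        simp only [S, mem_map] at hx
        obtain ⟨x', hx', rfl⟩ := hx
        rw [mem_biUnion]
        exact ⟨x', hx', by simp only [t']; rw [mem_disjSum]; exact Or.inl ⟨a, ha, rfl⟩⟩
      · obtain ⟨x', hx'⟩ := hs
        rw [mem_biUnion]
        exact ⟨x', hx', by simp only [t']; rw [mem_disjSum]; exact Or.inr ⟨b, hb, rfl⟩⟩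
    have h2 := card_le_card h1
    rw [card_disjSum, card_univ, Fintype.card_fin] at h2
    have h3 := key2 S hS
    have h4 : S.card = s.card := card_map _
    omega
  obtain ⟨f, hfinj, hf⟩ := (all_card_le_biUnion_card_iff_exists_injective t').mp hall
  -- the partial injection
  let P0 : Finset {x // x ∈ F} := univ.filter (fun x => (f x).isLeft = true)
  let P : Finset α := P0.map (Function.Embedding.subtype _)
  have hPF : P ⊆ F := by
    intro x hx
    simp only [P, mem_map] at hx
    obtain ⟨a, _, rfl⟩ := hx
    exact a.2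
  let g : α → α := fun x => if hx : x ∈ F then Sum.elim (fun y => y) (fun _ => x) (f ⟨x, hx⟩) else x
  have hg : ∀ x (hx : x ∈ F), x ∈ P → f ⟨x, hx⟩ = Sum.inl (g x) := by
    intro x hx hxP
    simp only [P, mem_map, P0, mem_filter] at hxP
    obtain ⟨a, ha, hax⟩ := hxP
    have hax' : a = ⟨x, hx⟩ := Subtype.ext hax
    subst hax'
    obtain ⟨y, hy⟩ := Sum.isLeft_iff.mp ha.2
    simp only [g, dif_pos hx, hy, Sum.elim_inl]
  have hPcard : F.card ≤ P.card + D := by
    have h1 : P.card = P0.card := card_map _
    have h2 : (univ.filter (fun x : {x // x ∈ F} => ¬ (f x).isLeft = true)).card ≤ D := by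
      have : (univ.filter (fun x : {x // x ∈ F} => ¬ (f x).isLeft = true)).card ≤
          ((univ : Finset (Fin D)).map ⟨Sum.inr, Sum.inr_injective⟩ : Finset (α ⊕ Fin D)).card := by
        refine card_le_card_of_injOn f ?_ hfinj.injOn
        intro x hx
        have hx' : ¬ (f x).isLeft = true := (mem_filter.mp hx).2
        rcases hfx : f x with y | y
        · rw [hfx] at hx'
          simp at hx'
        · simp
      simpa using this
    have h3 := card_filter_add_card_filter_not (s := (univ : Finset {x // x ∈ F}))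
      (fun x => (f x).isLeft = true)
    have h4 : (univ : Finset {x // x ∈ F}).card = F.card := by
      rw [card_univ, Fintype.card_coe]
    rw [h1]
    simp only [P0]
    omega
  have hginj : ∀ x ∈ P, ∀ y ∈ P, g x = g y → x = y := by
    intro x hx y hy hxy
    have h1 := hg x (hPF hx) hx
    have h2 := hg y (hPF hy) hy
    rw [hxy, ← h2] at h1
    exact congrArg Subtype.val (hfinj h1)
  have hgN : ∀ x ∈ P, g x ∈ N x := by
    intro x hx
    have h1 := hf ⟨x, hPF hx⟩
    rw [hg x (hPF hx) hx] at h1
    simp only [t', inl_mem_disjSum] at h1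
    exact h1
  obtain ⟨M, hM, hMcard, hdis⟩ := exists_matching g P.card P le_rfl hginj
    (fun x hx => ((hN _ _).mp (hgN x hx)).2.1)
  have hMN : ∀ x ∈ M, ∃ t ∈ T, cov t x ∧ cov t (g x) := fun x hx =>
    ((hN _ _).mp (hgN x (hM hx))).2.2
  choose! s hsT hs using (fun x (hx : x ∈ F) => h.exists_cov hx)
  choose! r hrT hr using hMN
  have hgF : ∀ x ∈ M, g x ∈ F := fun x hx => ((hN _ _).mp (hgN x (hM hx))).1
  have hMF : M ⊆ F := hM.trans hPF
  set U := M ∪ M.image g with hU
  have hUF : U ⊆ F := by
    intro x hx
    rw [hU, mem_union, mem_image] at hx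
    rcases hx with hx | ⟨y, hy, rfl⟩
    · exact hMF hx
    · exact hgF y hy
  have hUcard : U.card = 2 * M.card := by
    rw [hU, card_union_of_disjoint, card_image_of_injOn]
    · ring
    · intro x hx y hy hxy
      exact hginj x (hM hx) y (hM hy) hxy
    · rw [disjoint_left]
      intro x hx hx'
      rw [mem_image] at hx'
      obtain ⟨y, hy, hyx⟩ := hx'
      by_cases e : y = x
      · rw [e] at hyx
        exact ((hN _ _).mp (hgN x (hM hx))).2.1 hyx
      · exact (hdis y hy x hx e).1 hyx
  refine ⟨M.image r ∪ (F \ U).image s, ?_, ?_, ?_⟩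
  · intro t ht
    rw [mem_union, mem_image, mem_image] at ht
    rcases ht with ⟨x, hx, rfl⟩ | ⟨x, hx, rfl⟩
    · exact hrT x hx
    · exact hsT x (mem_sdiff.mp hx).1
  · have h1 : (M.image r ∪ (F \ U).image s).card ≤ M.card + (F \ U).card :=
      (card_union_le _ _).trans (Nat.add_le_add card_image_le card_image_le)
    have h2 : (F \ U).card = F.card - U.card := card_sdiff_of_subset hUF
    have h3 : U.card ≤ F.card := card_le_card hUF
    have h4 : 3 * (M.image r ∪ (F \ U).image s).card ≤ 2 * F.card + D := by omega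
    have h5 : ((3 * (M.image r ∪ (F \ U).image s).card : ℕ) : ℝ) ≤ (2 * F.card + D : ℕ) := by
      exact_mod_cast h4
    push_cast at h5
    linarith
  · intro x hx
    by_cases hxU : x ∈ U
    · rw [hU, mem_union, mem_image] at hxU
      rcases hxU with hxM | ⟨y, hy, rfl⟩
      · exact ⟨r x, mem_union_left _ (mem_image_of_mem r hxM), (hr x hxM).1⟩
      · exact ⟨r y, mem_union_left _ (mem_image_of_mem r hy), (hr y hy).2⟩
    · exact ⟨s x, mem_union_right _ (mem_image_of_mem s (mem_sdiff.mpr ⟨hx, hxU⟩)), hs x hx⟩

/-- **Integrality gap for few elements.** -/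
theorem small_cover {cov : ι → α → Prop} {T : Finset ι} {w : ι → ℝ} (m : ℕ) :
    ∀ F : Finset α, F.card ≤ m → FracCover cov F T w →
    ∃ C ⊆ T, (3 * C.card : ℝ) ≤ F.card + 2 * ∑ t ∈ T, w t ∧ ∀ x ∈ F, ∃ t ∈ C, cov t x := by
  classical
  induction m with
  | zero =>
    intro F hF h
    have hF0 : F = ∅ := card_eq_zero.mp (by omega)
    subst hF0
    refine ⟨∅, empty_subset _, ?_, by simp⟩
    have := sum_nonneg h.1
    simp only [card_empty, Nat.cast_zero]
    linarith
  | succ m ih =>
    intro F hF h
    by_cases hbig : ∃ t ∈ T, 3 ≤ (shell cov F t).card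
    · obtain ⟨t, ht, ht3⟩ := hbig
      have hsub : shell cov F t ⊆ F := fun x hx => (mem_shell.mp hx).1
      have hc : (F \ shell cov F t).card = F.card - (shell cov F t).card :=
        card_sdiff_of_subset hsub
      have hle : (shell cov F t).card ≤ F.card := card_le_card hsub
      obtain ⟨C, hCT, hCc, hC⟩ := ih (F \ shell cov F t) (by omega) (h.mono sdiff_subset)
      refine ⟨insert t C, insert_subset ht hCT, ?_, ?_⟩
      · have h1 : (insert t C).card ≤ C.card + 1 := card_insert_le _ _
        have h2 : ((insert t C).card : ℝ) ≤ C.card + 1 := by exact_mod_cast h1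
        have h3 : ((F \ shell cov F t).card : ℝ) ≤ F.card - 3 := by
          have : (F \ shell cov F t).card + 3 ≤ F.card := by omega
          have : (((F \ shell cov F t).card + 3 : ℕ) : ℝ) ≤ F.card := by exact_mod_cast this
          push_cast at this
          linarith
        linarith
      · intro x hx
        by_cases hxt : cov t x
        · exact ⟨t, mem_insert_self _ _, hxt⟩
        · obtain ⟨t', ht', hc'⟩ := hC x (mem_sdiff.mpr ⟨hx, fun hh => hxt (mem_shell.mp hh).2⟩)
          exact ⟨t', mem_insert_of_mem ht', hc'⟩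
    · push Not at hbig
      exact pair_cover h (fun t ht => by have := hbig t ht; omega)

/-- **Greedy cover, many elements.** -/
theorem large_cover {cov : ι → α → Prop} {T : Finset ι} {w : ι → ℝ} {n : ℝ} (hn : 0 < n)
    (hWn : ∑ t ∈ T, w t ≤ n) (m : ℕ) :
    ∀ F : Finset α, F.card ≤ m → FracCover cov F T w → 3 * n ≤ F.card →
    ∃ C ⊆ T, (C.card : ℝ) ≤ n * (5 / 3 + Real.log (F.card / (3 * n))) ∧
      ∀ x ∈ F, ∃ t ∈ C, cov t x := by
  classical
  induction m with
  | zero =>
    intro F hF h h3
    have hF0 : F.card = 0 := by omega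
    rw [hF0] at h3
    simp only [Nat.cast_zero] at h3
    linarith
  | succ m ih =>
    intro F hF h h3
    have hV : (0 : ℝ) < F.card := by linarith
    have hFne : F.Nonempty := by
      rw [← card_pos]
      exact_mod_cast hV
    have hTne : T.Nonempty := by
      obtain ⟨x, hx⟩ := hFne
      obtain ⟨t, ht, _⟩ := h.exists_cov hx
      exact ⟨t, ht⟩
    obtain ⟨t, ht, hmax⟩ := exists_max_image T (fun t => (shell cov F t).card) hTne
    set q := (shell cov F t).card with hq
    have hqn : (F.card : ℝ) ≤ q * n := by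
      have h1 := h.packing (fun _ => (1 : ℝ)) (fun _ _ => zero_le_one) (q : ℝ) (fun t' ht' => by
        rw [sum_const, nsmul_eq_mul, mul_one]
        exact_mod_cast hmax t' ht')
      rw [sum_const, nsmul_eq_mul, mul_one] at h1
      exact h1.trans (mul_le_mul_of_nonneg_left hWn (Nat.cast_nonneg _))
    have hsub : shell cov F t ⊆ F := fun x hx => (mem_shell.mp hx).1
    have hcN : (F \ shell cov F t).card = F.card - q := card_sdiff_of_subset hsub
    have hle : q ≤ F.card := card_le_card hsub
    have hc : ((F \ shell cov F t).card : ℝ) = F.card - q := by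
      rw [hcN, Nat.cast_sub hle]
    have hq3 : (3 : ℝ) ≤ q := by
      by_contra hcon
      push Not at hcon
      nlinarith
    have hq1 : 1 ≤ q := by
      have : (1 : ℝ) ≤ q := by linarith
      exact_mod_cast this
    have hstep : ∀ C : Finset ι, (∀ x ∈ F \ shell cov F t, ∃ t' ∈ C, cov t' x) →
        ∀ x ∈ F, ∃ t' ∈ insert t C, cov t' x := by
      intro C hC x hx
      by_cases hxt : cov t x
      · exact ⟨t, mem_insert_self _ _, hxt⟩
      · obtain ⟨t', ht', hc'⟩ := hC x (mem_sdiff.mpr ⟨hx, fun hh => hxt (mem_shell.mp hh).2⟩)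
        exact ⟨t', mem_insert_of_mem ht', hc'⟩
    have h3n : (0 : ℝ) < 3 * n := by linarith
    have hlog : ∀ a b : ℝ, 0 < a → 0 < b → 1 - b / a ≤ Real.log (a / b) := by
      intro a b ha hb
      have := Real.one_sub_inv_le_log_of_pos (div_pos ha hb)
      rwa [inv_div] at this
    by_cases hbig : 3 * n ≤ ((F \ shell cov F t).card : ℝ)
    · obtain ⟨C, hCT, hCc, hC⟩ := ih (F \ shell cov F t) (by omega) (h.mono sdiff_subset) hbig
      refine ⟨insert t C, insert_subset ht hCT, ?_, hstep C hC⟩
      have h2 : ((insert t C).card : ℝ) ≤ C.card + 1 := by exact_mod_cast card_insert_le _ _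
      have hV' : (0 : ℝ) < F.card - q := by rw [← hc]; linarith
      rw [hc] at hCc
      have hl := hlog (F.card) (F.card - q) hV hV'
      have e1 : Real.log (F.card / (F.card - q)) =
          Real.log (F.card / (3 * n)) - Real.log ((F.card - q) / (3 * n)) := by
        rw [Real.log_div hV.ne' hV'.ne', Real.log_div hV.ne' h3n.ne', Real.log_div hV'.ne' h3n.ne']
        ring
      rw [e1] at hl
      have hl2 : (q : ℝ) / F.card ≤
          Real.log (F.card / (3 * n)) - Real.log ((F.card - q) / (3 * n)) := by
        refine le_trans (le_of_eq ?_) hl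
        field_simp
        ring
      have hl3 : 1 ≤ n * ((q : ℝ) / F.card) := by
        rw [mul_div_assoc', le_div_iff₀ hV]
        linarith
      nlinarith
    · push Not at hbig
      rw [hc] at hbig
      obtain ⟨C, hCT, hCc, hC⟩ := small_cover (cov := cov) (T := T) (w := w) _
        (F \ shell cov F t) le_rfl (h.mono sdiff_subset)
      refine ⟨insert t C, insert_subset ht hCT, ?_, hstep C hC⟩
      have h2 : ((insert t C).card : ℝ) ≤ C.card + 1 := by exact_mod_cast card_insert_le _ _
      rw [hc] at hCc
      have hl := hlog (F.card) (3 * n) hV h3n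
      have hgoal : (F.card - q + 2 * n) / 3 + 1 ≤ n * (5 / 3 + (1 - 3 * n / F.card)) := by
        have e : n * (5 / 3 + (1 - 3 * n / F.card)) - ((F.card - q + 2 * n) / 3 + 1) =
            (q * F.card - (F.card - 3 * n) ^ 2 - 3 * F.card) / (3 * F.card) := by
          field_simp
          ring
        have hnum : 0 ≤ (q : ℝ) * F.card - (F.card - 3 * n) ^ 2 - 3 * F.card := by
          have a1 : (F.card : ℝ) - 3 * n ≤ q := by linarith
          have a2 : 0 ≤ (F.card : ℝ) - 3 * n := by linarith
          nlinarith [mul_le_mul_of_nonneg_right a1 a2]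
        have := div_nonneg hnum (by positivity : (0 : ℝ) ≤ 3 * F.card)
        linarith
      have hmono : n * (5 / 3 + (1 - 3 * n / F.card)) ≤
          n * (5 / 3 + Real.log (F.card / (3 * n))) := by
        apply mul_le_mul_of_nonneg_left _ hn.le
        linarith
      linarith

end Cover

end HH284
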